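import Pool.Agent.Lib.MP_a9d09b_co.Main
import Pool.Agent.Lib.MP_a9d09b_co.Mult

namespace Pool.Agent.Results.MP_a9d09b_co.NoTensorization

open Pool.Agent.Lib.MP_a9d09b_co

universe u

/-- Tensorization fails for the partition rank over every field and for the analytic rank over
every prime field, in every dimension `d ≥ 4`: there is a tensor `A` with `r(A) < r(Id)` such
that for every `c < 1` some `m ≥ 1` has `r(A^{⊗m}) ≥ c ^ m r(Id^{⊗m})`. -/
theorem result :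
    (∀ (F : Type u) [Field F] (d : ℕ), 4 ≤ d →
      ∃ n : ℕ, 1 ≤ n ∧ ∃ A : Tensor F d (Fin n),
        prank A < prank (idT : Tensor F d (Fin n)) ∧
        ∀ c : ℝ, c < 1 → ∃ m : ℕ, 1 ≤ m ∧
          c ^ m * (prank (tpow (idT : Tensor F d (Fin n)) m) : ℝ) ≤ (prank (tpow A m) : ℝ)) ∧
    (∀ (p : ℕ) [Fact p.Prime] (d : ℕ), 4 ≤ d →
      ∃ n : ℕ, 1 ≤ n ∧ ∃ A : Tensor (ZMod p) d (Fin n),
        arank A < arank (idT : Tensor (ZMod p) d (Fin n)) ∧
        ∀ c : ℝ, c < 1 → ∃ m : ℕ, 1 ≤ m ∧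
          c ^ m * arank (tpow (idT : Tensor (ZMod p) d (Fin n)) m) ≤ arank (tpow A m)) :=
  ⟨fun F _ d hd => main_prank F d hd, fun p _ d hd => main_arank p d hd⟩

end Pool.Agent.Results.MP_a9d09b_co.NoTensorization
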